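import Pool.Agent.PQP.StmtsT

/-!
# PQP: HMT, homotopy invariance of inessential pairs
-/

set_option autoImplicit false

open scoped Topology
open Filter Set

noncomputable section

namespace Pool.Agent.PQP.H90

section mix

variable {P E : Type} [NormedAddCommGroup P] [NormedAddCommGroup E]

/-- the domain is closed -/
theorem dm_closed : IsClosed (Dm P E) := by
  unfold Dm
  refine IsClosed.and ?_ ?_
  · exact isClosed_le (by fun_prop) continuous_const
  · exact isClosed_le (by fun_prop) continuous_const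

/-- the boundary is closed -/
theorem bd_closed : IsClosed (Bd P E) := by
  have h : Bd P E = Dm P E ∩ ({z | ‖z.1‖ = 1} ∪ {z | ‖z.2‖ = 1}) := by
    ext z
    constructor
    · rintro ⟨h1, h2, h3⟩
      exact ⟨⟨h1, h2⟩, h3⟩
    · rintro ⟨⟨h1, h2⟩, h3⟩
      exact ⟨h1, h2, h3⟩
  rw [h]
  exact dm_closed.inter ((isClosed_eq (by fun_prop) continuous_const).union
    (isClosed_eq (by fun_prop) continuous_const))

theorem bd_sub {z : P × E} (h : z ∈ Bd P E) : z ∈ Dm P E := ⟨h.1, h.2.1⟩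

/-- the extension of a homotopy to `[0, 2]` -/
def ex {F : Type} [NormedAddCommGroup F] [NormedSpace ℝ F] (b : ℝ × (P × E) → F)
    (b' : P × E → F) (w : ℝ × (P × E)) : F :=
  (1 - max (w.1 - 1) 0) • b (min w.1 1, w.2) + max (w.1 - 1) 0 • b' w.2

variable {F : Type} [NormedAddCommGroup F] [NormedSpace ℝ F] {b : ℝ × (P × E) → F}
  {b' : P × E → F}

theorem ex_cont (hb : ContinuousOn b (Icc (0 : ℝ) 1 ×ˢ Dm P E)) (hb' : ContinuousOn b' (Dm P E)) :
    ContinuousOn (ex b b') (Icc (0 : ℝ) 2 ×ˢ Dm P E) := by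
  unfold ex
  refine ContinuousOn.add (ContinuousOn.smul (by fun_prop) ?_) (ContinuousOn.smul (by fun_prop) ?_)
  · refine hb.comp (by fun_prop) ?_
    rintro ⟨s, z⟩ ⟨h1, h2⟩
    exact ⟨⟨le_min h1.1 zero_le_one, min_le_right _ _⟩, h2⟩
  · refine hb'.comp (by fun_prop) ?_
    rintro ⟨s, z⟩ ⟨_, h2⟩
    exact h2

theorem ex_zero (z : P × E) : ex b b' (0, z) = b (0, z) := by
  unfold ex
  have h1 : max ((0 : ℝ) - 1) 0 = 0 := max_eq_right (by norm_num)
  have h2 : min (0 : ℝ) 1 = 0 := min_eq_left zero_le_one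
  simp only [h1, h2, sub_zero, one_smul, zero_smul, add_zero]

theorem ex_two (z : P × E) : ex b b' (2, z) = b' z := by
  unfold ex
  have h1 : max ((2 : ℝ) - 1) 0 = 1 := by norm_num
  simp only [h1, sub_self, one_smul, zero_smul, zero_add]

/-- on the boundary the extension is constant for `s ≥ 1` -/
theorem ex_bd {s : ℝ} {z : P × E} (hz : b' z = b (1, z)) : ex b b' (s, z) = b (min s 1, z) := by
  unfold ex
  simp only
  rcases le_total s 1 with h | h
  · have h1 : max (s - 1) 0 = 0 := max_eq_right (by linarith)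
    rw [h1, sub_zero, one_smul, zero_smul, add_zero]
  · have h1 : min s 1 = 1 := min_eq_right h
    rw [h1, hz, ← add_smul, sub_add_cancel, one_smul]

end mix

/-- HMT -/
theorem hmt : HmtStmt := by
  intro P E _ _ _ _ β T hβ hT hno hI
  obtain ⟨hTc, K, hK, hTK⟩ := hT
  obtain ⟨β', T', hβ', ⟨hTc', K', hK', hTK'⟩, hbd, hno'⟩ := hI
  have hB := ex_cont hβ hβ'
  have hTT := ex_cont hTc hTc'
  -- the zeros
  have hdom : IsClosed (Icc (0 : ℝ) 2 ×ˢ Dm P E) := isClosed_Icc.prod dm_closed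
  have hC : IsClosed {w : ℝ × (P × E) | w ∈ Icc (0 : ℝ) 2 ×ˢ Dm P E ∧
      (ex β β' w, w.2.2 - ex T T' w) = ((0 : P), (0 : E))} := by
    have h1 : ContinuousOn (fun w : ℝ × (P × E) => (ex β β' w, w.2.2 - ex T T' w))
        (Icc (0 : ℝ) 2 ×ˢ Dm P E) :=
      hB.prodMk (ContinuousOn.sub (by fun_prop) hTT)
    exact h1.preimage_isClosed_of_isClosed hdom isClosed_singleton
  obtain ⟨Z, hZdef⟩ : ∃ Z : Set (P × E), Z = {z | ∃ s ∈ Icc (0 : ℝ) 2, z ∈ Dm P E ∧
    ex β β' (s, z) = 0 ∧ z.2 = ex T T' (s, z)} := ⟨_, rfl⟩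
  have hZ : IsClosed Z := by
    have h1 : Z = Prod.snd '' {w : (Icc (0 : ℝ) 2) × (P × E) | ((w.1 : ℝ), w.2) ∈
        {w : ℝ × (P × E) | w ∈ Icc (0 : ℝ) 2 ×ˢ Dm P E ∧
          (ex β β' w, w.2.2 - ex T T' w) = ((0 : P), (0 : E))}} := by
      rw [hZdef]
      ext z
      constructor
      · rintro ⟨s, hs, h1, h2, h3⟩
        refine ⟨(⟨s, hs⟩, z), ⟨⟨hs, h1⟩, ?_⟩, rfl⟩
        exact Prod.ext h2 (sub_eq_zero.2 h3)
      · rintro ⟨⟨⟨s, hs⟩, z'⟩, ⟨⟨_, h1⟩, h2⟩, rfl⟩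
        exact ⟨s, hs, h1, congrArg Prod.fst h2, sub_eq_zero.1 (congrArg Prod.snd h2)⟩
    rw [h1]
    refine isClosedMap_snd_of_compactSpace _ (hC.preimage ?_)
    fun_prop
  have hZB : Disjoint (Bd P E) Z := by
    rw [Set.disjoint_left]
    intro z hz hz'
    rw [hZdef] at hz'
    obtain ⟨s, hs, _, h2, h3⟩ := hz'
    obtain ⟨e1, e2⟩ := hbd z hz
    rw [ex_bd e1] at h2
    rw [ex_bd e2] at h3
    exact hno (min s 1) ⟨le_min hs.1 zero_le_one, min_le_right _ _⟩ z hz ⟨h2, h3⟩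
  obtain ⟨f, hf0, hf1, hf⟩ := exists_continuous_zero_one_of_isClosed bd_closed hZ hZB
  have hmap : MapsTo (fun z : P × E => ((2 * f z : ℝ), z)) (Dm P E) (Icc (0 : ℝ) 2 ×ˢ Dm P E) := by
    intro z hz
    have := hf z
    exact ⟨⟨by linarith [this.1], by linarith [this.2]⟩, hz⟩
  have hcf : Continuous (fun z : P × E => ((2 * f z : ℝ), z)) := by fun_prop
  refine ⟨fun z => ex β β' (2 * f z, z), fun z => ex T T' (2 * f z, z),
    hB.comp hcf.continuousOn hmap, ⟨hTT.comp hcf.continuousOn hmap, ?_⟩, ?_, ?_⟩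
  · refine ⟨(fun q : ℝ × (E × E) => (1 - q.1) • q.2.1 + q.1 • q.2.2) '' (Icc (0 : ℝ) 1 ×ˢ (K ×ˢ K')),
      (isCompact_Icc.prod (hK.prod hK')).image (by fun_prop), ?_⟩
    intro z hz
    have h1 := hmap hz
    simp only [Set.mem_prod, Set.mem_Icc] at h1
    refine ⟨(max (2 * f z - 1) 0, (T (min (2 * f z) 1, z), T' z)), ⟨⟨le_max_right _ _, ?_⟩, ?_, ?_⟩,
      rfl⟩
    · exact max_le (by linarith [h1.1.2]) zero_le_one
    · exact hTK _ ⟨⟨le_min h1.1.1 zero_le_one, min_le_right _ _⟩, hz⟩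
    · exact hTK' _ hz
  · intro z hz
    have h1 : f z = 0 := hf0 hz
    simp only [h1, mul_zero]
    exact ⟨ex_zero z, ex_zero z⟩
  · rintro z hz ⟨h1, h2⟩
    have h3 : z ∈ Z := by
      rw [hZdef]
      exact ⟨2 * f z, (hmap hz).1, hz, h1, h2⟩
    have h4 : f z = 1 := hf1 h3
    simp only [h4, mul_one] at h1 h2
    rw [ex_two] at h1 h2
    exact hno' z hz ⟨h1, h2⟩

end Pool.Agent.PQP.H90
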